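import Pool.Agent.LibHB64.IN2
import Pool.Agent.LibHB64.COFin
import Pool.Agent.LibHM88.SH12
import Pool.Agent.LibHM88.MA

set_option autoImplicit false

/-!
MP_8accfa_co: the h-vectors of balls of dimension 5 and 6 (`d = 6` and `d = 7`).
-/

namespace Pool.Agent.Results.MP_8accfa_co.BallsDim5And6

open Pool.Agent.LibHB64

/-- `q = C(k+1,2) + j` with `0 ≤ j ≤ k`: the number `k` -/
def mk (q : ℕ) : ℕ := Nat.findGreatest (fun k => (k + 1).choose 2 ≤ q) q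

/-- Macaulay's function: `q = C(k+1,2) + j` with `0 ≤ j ≤ k` is sent to `C(k+2,3) + C(j+1,2)` -/
def mac (q : ℕ) : ℕ := (mk q + 2).choose 3 + (q - (mk q + 1).choose 2 + 1).choose 2

/-- the explicit conditions on the vector `(h 0, ..., h d)`, for `d = 6` and `d = 7` -/
structure Explicit (d : ℕ) (h : ℕ → ℕ) : Prop where
  first : h 0 = 1
  last : h d = 0
  up₁ : h (d - 1) ≤ h (d - 2)
  up₂ : h (d - 2) ≤ h (d - 3)
  up₃ : h (d - 3) ≤ h 3
  le₁ : h (d - 1) ≤ h 1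
  le₂ : h (d - 2) ≤ h 2
  quad : h 2 ≤ (h 1 + 1).choose 2
  quad' : h 2 - h (d - 2) ≤ (h 1 - h (d - 1) + 1).choose 2
  cub : h 3 - h (d - 3) ≤ mac (h 2 - h (d - 2))
  new : ∃ c, 1 ≤ c ∧ h (d - 1) ≤ c ∧ h 2 ≤ (c + 1).choose 2 ∧
    h 2 - h (d - 2) ≤ (c - h (d - 1) + 1).choose 2 ∧ h 3 ≤ h 2 + mac (h 2 - c)

theorem explicit_iff {d : ℕ} {h : ℕ → ℕ} : Explicit d h ↔ Pool.LibHM88.Cond d h := by
  constructor
  · rintro ⟨a1, a2, a3, a4, a5, a6, a7, a8, a9, a10, a11⟩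
    exact ⟨a1, a2, a3, a4, a5, a6, a7, a8, a9, a10, a11⟩
  · rintro ⟨a1, a2, a3, a4, a5, a6, a7, a8, a9, a10, a11⟩
    exact ⟨a1, a2, a3, a4, a5, a6, a7, a8, a9, a10, a11⟩

/-- for `d = 6, 7` and every `h`: `h` is the h-vector of a shellable ball of dimension `d - 1` iff it satisfies the explicit
conditions, and `h` is the h-vector of a homology ball (over the field with two elements) of dimension `d - 1` iff it
satisfies the explicit conditions -/
theorem result (d : ℕ) (hd : d = 6 ∨ d = 7) (h : ℕ → ℕ) :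
    ((∃ n, ∃ D : Finset (Finset (Fin n)), ShBall d D ∧ ∀ i, i ≤ d → hnum d D i = h i) ↔ Explicit d h) ∧
      ((∃ n, ∃ D : Finset (Finset (Fin n)), HBall d D ∧ ∀ i, i ≤ d → hnum d D i = h i) ↔ Explicit d h) := by
  have nec : (∃ n, ∃ D : Finset (Finset (Fin n)), HBall d D ∧ ∀ i, i ≤ d → hnum d D i = h i) → Explicit d h := by
    rintro ⟨n, D, hD, hh⟩
    exact explicit_iff.2 (Pool.LibHM88.cond_of_all hd (cond_all hD fun i hi => (hh i hi).symm))
  have suf : Explicit d h → ∃ n, ∃ D : Finset (Finset (Fin n)), ShBall d D ∧ ∀ i, i ≤ d → hnum d D i = h i := by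
    intro he
    exact cons_ball hd (explicit_iff.1 he)
  refine ⟨⟨?_, suf⟩, ⟨nec, ?_⟩⟩
  · rintro ⟨n, D, hD, hh⟩
    exact nec ⟨n, D, Pool.LibHM88.sh_hball hD, hh⟩
  · intro he
    obtain ⟨n, D, hD, hh⟩ := suf he
    exact ⟨n, D, Pool.LibHM88.sh_hball hD, hh⟩

end Pool.Agent.Results.MP_8accfa_co.BallsDim5And6
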