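import Pool.Agent.LibHB64.IN2
import Pool.Agent.LibHB64.COV4
import Pool.Agent.LibHM88.SH12

set_option autoImplicit false

/-!
MP_8accfa_co: the h-vectors of balls of every dimension whose first half `h 0, ..., h (d / 2)` is the first half of the
h-vector of a simplicial sphere.
-/

namespace Pool.Agent.Results.MP_8accfa_co.GrowthClass

open Pool.Agent.LibHB64

/-- the conditions: `h 0 = 1`, `h d = 0`, `h (d - i)` is nondecreasing for `i ≤ d / 2` and at most `h i`, the numbers
`h 0, ..., h (d / 2)` form an M-sequence, and so do the differences `h i - h (d - i)`, `i ≤ (d - 1) / 2` -/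
structure Conditions (d : ℕ) (h : ℕ → ℕ) : Prop where
  first : h 0 = 1
  last : h d = 0
  up : ∀ i, i + 1 ≤ d / 2 → h (d - i) ≤ h (d - (i + 1))
  le : ∀ i, i ≤ d / 2 → h (d - i) ≤ h i
  mseq : IsM (d / 2) h
  mseq' : IsM ((d - 1) / 2) fun i => h i - h (d - i)

/-- `h 0, ..., h (d / 2)` is nondecreasing and the differences `h 0, h 1 - h 0, h 2 - h 1, ...` form an M-sequence: by the
`g`-theorem these are the first halves of the h-vectors of simplicial spheres of dimension `d - 1` -/
def SphereLike (d : ℕ) (h : ℕ → ℕ) : Prop :=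
  (∀ i, i < d / 2 → h i ≤ h (i + 1)) ∧ IsM (d / 2) fun i => h i - if i = 0 then 0 else h (i - 1)

/-- for every `d ≥ 2` and every `h` with a sphere-like first half: `h` is the h-vector of a shellable ball
of dimension `d - 1` iff the conditions hold, and `h` is the h-vector of a homology ball (over the field with two elements)
of dimension `d - 1` iff the conditions hold -/
theorem result (d : ℕ) (hd : 2 ≤ d) (h : ℕ → ℕ) (h1 : SphereLike d h) :
    ((∃ n, ∃ D : Finset (Finset (Fin n)), ShBall d D ∧ ∀ i, i ≤ d → hnum d D i = h i) ↔ Conditions d h) ∧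
      ((∃ n, ∃ D : Finset (Finset (Fin n)), HBall d D ∧ ∀ i, i ≤ d → hnum d D i = h i) ↔ Conditions d h) := by
  have nec : (∃ n, ∃ D : Finset (Finset (Fin n)), HBall d D ∧ ∀ i, i ≤ d → hnum d D i = h i) → Conditions d h := by
    rintro ⟨n, D, hD, hh⟩
    have hC : CondAll d h := cond_all hD fun i hi => (hh i hi).symm
    exact ⟨hC.zero, hC.last, hC.mono, hC.le, hC.mh, hC.mr⟩
  have suf : Conditions d h → ∃ n, ∃ D : Finset (Finset (Fin n)), ShBall d D ∧ ∀ i, i ≤ d → hnum d D i = h i := by
    intro he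
    exact suff_diff hd h1.1 h1.2 he.last he.up he.le he.mseq'
  refine ⟨⟨?_, suf⟩, ⟨nec, ?_⟩⟩
  · rintro ⟨n, D, hD, hh⟩
    exact nec ⟨n, D, Pool.LibHM88.sh_hball hD, hh⟩
  · intro he
    obtain ⟨n, D, hD, hh⟩ := suf he
    exact ⟨n, D, Pool.LibHM88.sh_hball hD, hh⟩

end Pool.Agent.Results.MP_8accfa_co.GrowthClass
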