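import Pool.Agent.LibHB64.IN2

set_option autoImplicit false

/-!
MP_8accfa_co: necessary conditions on the h-vectors of balls of all dimensions.
-/

namespace Pool.Agent.Results.MP_8accfa_co.NecessaryAllDim

open Pool.Agent.LibHB64

theorem result (d n : ℕ) (D : Finset (Finset (Fin n))) (hD : HBall d D) (h : ℕ → ℕ)
    (hh : ∀ i, i ≤ d → hnum d D i = h i) : CondAll d h :=
  cond_all hD fun i hi => (hh i hi).symm

end Pool.Agent.Results.MP_8accfa_co.NecessaryAllDim
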